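import Pool.Agent.W434.BW.StmB

set_option autoImplicit false

/-! Project BW: reduction without absorption (assembly of the absorption free step). -/

namespace Pool.Agent.W351.BW.RA

open Pool.Agent.W434.BW

section Quo

variable {Ω : Type} {ar : Ω → ℕ} {X : Type}

/-- the quotient algebra -/
noncomputable def quoA (a : Alg ar X) (s : Setoid X) : Alg ar (Quotient s) :=
  fun ω z => Quotient.mk s (a ω (fun i => (z i).out))

theorem quo_hom (a : Alg ar X) (s : Setoid X) (h : Rel a a s.r) :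
    Hom a (quoA a s) (Quotient.mk s) := by
  intro ω x
  apply Quotient.sound
  exact h ω _ _ (fun i => s.symm (Quotient.mk_out (x i)))

theorem quo_sur (s : Setoid X) : Function.Surjective (Quotient.mk s) := Quotient.mk_surjective

theorem quo_simple (a : Alg ar X) (s : Setoid X) (h : Rel a a s.r)
    (hmax : ∀ θ : X → X → Prop, Equivalence θ → Rel a a θ → (∀ x y, s.r x y → θ x y) →
      (∀ x y, θ x y → s.r x y) ∨ (∀ x y, θ x y)) : Simple (quoA a s) := by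
  intro θ hθ hrel
  have hh := quo_hom a s h
  have e' : Equivalence (fun x y => θ (Quotient.mk s x) (Quotient.mk s y)) :=
    ⟨fun x => hθ.refl _, fun h => hθ.symm h, fun h1 h2 => hθ.trans h1 h2⟩
  have r' : Rel a a (fun x y => θ (Quotient.mk s x) (Quotient.mk s y)) := by
    intro ω x y hxy
    show θ (Quotient.mk s (a ω x)) (Quotient.mk s (a ω y))
    rw [hh ω x, hh ω y]
    exact hrel ω _ _ hxy
  have i' : ∀ x y, s.r x y → θ (Quotient.mk s x) (Quotient.mk s y) := by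
    intro x y hxy
    have : Quotient.mk s x = Quotient.mk s y := Quotient.sound hxy
    rw [this]
    exact hθ.refl _
  rcases hmax _ e' r' i' with h1 | h1
  · left
    intro x y
    obtain ⟨x, rfl⟩ := quo_sur s x
    obtain ⟨y, rfl⟩ := quo_sur s y
    intro hxy
    exact Quotient.sound (h1 x y hxy)
  · right
    intro x y
    obtain ⟨x, rfl⟩ := quo_sur s x
    obtain ⟨y, rfl⟩ := quo_sur s y
    exact h1 x y

end Quo

theorem rel_transfer {Ω1 Ω2 : Type} {ar1 : Ω1 → ℕ} {ar2 : Ω2 → ℕ} {A : Type} {a1 : Alg ar1 A}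
    {a2 : Alg ar2 A} (inv : ∀ E : A → A → Prop, Rel a1 a1 E → Rel a2 a2 E) (P : Set A)
    (h1 : Sub a1 P) (h2 : Sub a2 P) (θ : P → P → Prop)
    (h : Rel (subA a1 P h1) (subA a1 P h1) θ) : Rel (subA a2 P h2) (subA a2 P h2) θ := by
  have hE : Rel a1 a1 (fun x y => ∃ (hx : x ∈ P) (hy : y ∈ P), θ ⟨x, hx⟩ ⟨y, hy⟩) := by
    intro ω x y hxy
    choose hx hy hθ using hxy
    exact ⟨h1 ω x hx, h1 ω y hy, h ω (fun i => ⟨x i, hx i⟩) (fun i => ⟨y i, hy i⟩) hθ⟩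
  have hE2 := inv _ hE
  intro ω x y hxy
  obtain ⟨hx, hy, hθ⟩ := hE2 ω (fun i => (x i : A)) (fun i => (y i : A))
    (fun i => ⟨(x i).2, (y i).2, hxy i⟩)
  exact hθ

theorem ctx_ok {Ω : Type} {ar : Ω → ℕ} (u : Tm ar (Fin 3)) {V St A : Type} [Finite A]
    (S : Sys V St A) (a : Alg ar A) (x0 : V) (hok : S.Ok) (hqc : S.Qc) (hn : Nice u a)
    (subP : ∀ x, Sub a (S.P x)) (relE : ∀ s, Rel a a (S.E s))
    (afP : ∀ x, AF (subA a (S.P x) (subP x))) (hp : S_prodAF) (nl : NLQ a)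
    (s : Setoid (S.P x0)) (hrel : Rel (subA a (S.P x0) (subP x0)) (subA a (S.P x0) (subP x0)) s.r)
    (hmax : ∀ θ : S.P x0 → S.P x0 → Prop, Equivalence θ →
      Rel (subA a (S.P x0) (subP x0)) (subA a (S.P x0) (subP x0)) θ →
      (∀ x y, s.r x y → θ x y) → (∀ x y, θ x y → s.r x y) ∨ (∀ x y, θ x y))
    (hnf : ∃ x y, ¬ s.r x y) (h0 : A → Quotient s)
    (hh0 : ∀ (c : A) (h : c ∈ S.P x0), h0 c = Quotient.mk s ⟨c, h⟩) (B : Quotient s) :
    (⟨S, a, quoA (subA a (S.P x0) (subP x0)) s, x0, h0, B⟩ :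
      Ctx ar V St A (Quotient s)).Ok u := by
  have hhom := quo_hom (subA a (S.P x0) (subP x0)) s hrel
  refine ⟨hok, hqc, hn, nice_img hhom (quo_sur s) (nice_sub _ (subP x0) hn), subP, relE, afP,
    ?_, ?_, ?_, ?_, ?_, ?_⟩
  · intro ω x hx
    show h0 (a ω x) = quoA (subA a (S.P x0) (subP x0)) s ω (fun i => h0 (x i))
    have h1 : ∀ i, h0 (x i) = Quotient.mk s ⟨x i, hx i⟩ := fun i => hh0 (x i) (hx i)
    rw [hh0 (a ω x) (subP x0 ω x hx)]
    simp only [h1]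
    exact hhom ω (fun i => ⟨x i, hx i⟩)
  · intro z
    obtain ⟨c, rfl⟩ := quo_sur s z
    exact ⟨c, c.2, hh0 c c.2⟩
  · exact quo_simple _ s hrel hmax
  · exact hp.2.1 Ω ar _ _ _ _ _ hhom (quo_sur s) (afP x0)
  · exact nl (S.P x0) (subP x0) (Quotient s) _ _ hhom (quo_sur s)
  · obtain ⟨x, y, hxy⟩ := hnf
    exact ⟨Quotient.mk s x, Quotient.mk s y, fun h => hxy (Quotient.exact h)⟩

theorem isPath_congr {V St A : Type} (S S' : Sys V St A) (h1 : S.src = S'.src)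
    (h2 : S.tgt = S'.tgt) (l : List St) (x y : V) : S.IsPath l x y ↔ S'.IsPath l x y := by
  induction l generalizing x with
  | nil => exact Iff.rfl
  | cons s l ih =>
    show (S.src s = x ∧ S.IsPath l (S.tgt s) y) ↔ (S'.src s = x ∧ S'.IsPath l (S'.tgt s) y)
    rw [ih, h1, h2]

theorem rl_mono {V St A : Type} (S S' : Sys V St A) (h : ∀ s a b, S.E s a b → S'.E s a b)
    (l : List St) (a b : A) : S.Rl l a b → S'.Rl l a b := by
  induction l generalizing a with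
  | nil => exact fun h => h
  | cons s l ih =>
    rintro ⟨c, h1, h2⟩
    exact ⟨c, h s a c h1, ih c h2⟩

/-- a compatible relation as a subuniverse -/
theorem sub_of_rel {Ω : Type} {ar : Ω → ℕ} {A : Type} {a : Alg ar A} {E : A → A → Prop}
    (h : Rel a a E) : Sub (prodA a a) {p : A × A | E p.1 p.2} := by
  intro ω x hx
  exact h ω _ _ hx

/-- the binary projection of an absorption free relation -/
theorem af_proj (hp : S_prodAF) {Ω : Type} {ar : Ω → ℕ} {A ι : Type} (a : Alg ar A)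
    (R : Set (ι → A)) (hR : Sub (piA a ι) R) (haf : AF (subA (piA a ι) R hR)) (i j : ι)
    (E : A → A → Prop) (hE : ∀ x y, E x y ↔ ∃ r ∈ R, r i = x ∧ r j = y)
    (hS : Sub (prodA a a) {p : A × A | E p.1 p.2}) :
    AF (subA (prodA a a) {p : A × A | E p.1 p.2} hS) := by
  refine hp.2.1 Ω ar R {p : A × A | E p.1 p.2} _ _
    (fun r => ⟨((r : ι → A) i, (r : ι → A) j), (hE _ _).2 ⟨r, r.2, rfl, rfl⟩⟩) ?_ ?_ haf
  · intro ω x
    rfl
  · rintro ⟨⟨x, y⟩, hxy⟩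
    obtain ⟨r, hr, h1, h2⟩ := (hE _ _).1 hxy
    refine ⟨⟨r, hr⟩, ?_⟩
    apply Subtype.ext
    exact Prod.ext h1 h2

/-- the diagonal -/
theorem af_diag (hp : S_prodAF) {Ω : Type} {ar : Ω → ℕ} {A : Type} (a : Alg ar A)
    (P : Set A) (hP : Sub a P) (haf : AF (subA a P hP))
    (E : A → A → Prop) (hE : ∀ x y, E x y ↔ (x = y ∧ x ∈ P))
    (hS : Sub (prodA a a) {p : A × A | E p.1 p.2}) :
    AF (subA (prodA a a) {p : A × A | E p.1 p.2} hS) := by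
  refine hp.2.1 Ω ar P {p : A × A | E p.1 p.2} _ _
    (fun r => ⟨((r : A), (r : A)), (hE _ _).2 ⟨rfl, r.2⟩⟩) ?_ ?_ haf
  · intro ω x
    rfl
  · rintro ⟨⟨x, y⟩, hxy⟩
    obtain ⟨h1, h2⟩ := (hE _ _).1 hxy
    refine ⟨⟨x, h2⟩, ?_⟩
    apply Subtype.ext
    exact Prod.ext rfl h1

theorem afd_ (hd : S_afd) {Ω : Type} {ar : Ω → ℕ} {u : Tm ar (Fin 3)} {V St A Q : Type}
    [Finite A] [Finite Q] (C : Ctx ar V St A Q) (hC : C.Ok u) (S : Sys V St A) (a : Alg ar A)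
    (hS : C.S = S) (ha : C.a = a) (s : St) (hE : Sub (prodA a a) {p : A × A | S.E s p.1 p.2})
    (haf : AF (subA (prodA a a) {p : A × A | S.E s p.1 p.2} hE)) :
    ∀ π ρ, S.IsPath π (S.src s) (S.tgt s) → S.IsPath ρ (S.tgt s) (S.src s) →
        ∃ N, ∀ j, N ≤ j → ∀ x y, S.E s x y → x ∈ C.P' (S.src s) → y ∈ C.P' (S.tgt s) →
          ({ S with
              E := fun s x y => S.E s x y ∧ x ∈ C.P' (S.src s) ∧ y ∈ C.P' (S.tgt s)
              P := C.P' } : Sys V St A).Rl (π ++ rep j (ρ ++ π)) x y := by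
  subst hS
  subst ha
  exact hd Ω ar u V St A Q C hC s hE haf

theorem redA (hS : S_sysok) (hp : S_prodAF) (ha : S_afa) (hb : S_afb) (hc : S_afc)
    (hd : S_afd) : S_redA := by
  intro Ω1 Ω2 ar1 ar2 V K A _ _ _ ι _ M u1 u2 a1 a2 hT hM hQc hAF1 hAF2 hAFk1 hAFk2 hex
  classical
  obtain ⟨x0, c0, hc0, d0, hd0, hcd⟩ := hex
  obtain ⟨hok, hrel1, hrel2, hsub2⟩ := hS Ω1 Ω2 ar1 ar2 V K A ι M u1 u2 a1 a2 hT hM
  -- a maximal congruence
  obtain ⟨TS, hTS⟩ : ∃ TS : Set (M.P x0 → M.P x0 → Prop), TS = {θ | Equivalence θ ∧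
    Rel (subA a1 (M.P x0) (hM.subP x0)) (subA a1 (M.P x0) (hM.subP x0)) θ ∧
    ¬ ∀ x y, θ x y} := ⟨_, rfl⟩
  have hne : TS.Nonempty := by
    refine ⟨Eq, ?_⟩
    rw [hTS]
    refine ⟨⟨fun _ => rfl, fun h => h.symm, fun h1 h2 => h1.trans h2⟩, ?_, ?_⟩
    · intro ω x y hxy
      have : x = y := funext hxy
      rw [this]
    · intro h
      have h1 := h ⟨c0, hc0⟩ ⟨d0, hd0⟩
      exact hcd (congrArg Subtype.val h1)
  obtain ⟨θ, hθ⟩ := (Set.toFinite TS).exists_maximal hne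
  have hθm := hθ.prop
  rw [hTS] at hθm
  obtain ⟨hθe, hθr, hθn⟩ := hθm
  have hθmax : ∀ θ' : M.P x0 → M.P x0 → Prop, Equivalence θ' →
      Rel (subA a1 (M.P x0) (hM.subP x0)) (subA a1 (M.P x0) (hM.subP x0)) θ' →
      (∀ x y, θ x y → θ' x y) → (∀ x y, θ' x y → θ x y) ∨ (∀ x y, θ' x y) := by
    intro θ' h1 h2 h3
    by_cases hf : ∀ x y, θ' x y
    · exact Or.inr hf
    · left
      have h4 : θ' ∈ TS := by
        rw [hTS]
        exact ⟨h1, h2, hf⟩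
      exact hθ.le_of_ge h4 h3
  let s : Setoid (M.P x0) := ⟨θ, hθe⟩
  have hnf : ∃ x y, ¬ s.r x y := by
    by_contra hno
    push Not at hno
    exact hθn hno
  let h0 : A → Quotient s := fun c => if h : c ∈ M.P x0 then Quotient.mk s ⟨c, h⟩
    else Quotient.mk s ⟨c0, hc0⟩
  have hh0 : ∀ (c : A) (h : c ∈ M.sys.P x0), h0 c = Quotient.mk s ⟨c, h⟩ := by
    intro c h
    have h' : c ∈ M.P x0 := h
    simp only [h0, dif_pos h']
  let B : Quotient s := Quotient.mk s ⟨c0, hc0⟩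
  have hθr2 : Rel (subA a2 (M.P x0) (hsub2 x0)) (subA a2 (M.P x0) (hsub2 x0)) θ :=
    rel_transfer (fun E => (hT.inv E).1) (M.P x0) (hM.subP x0) (hsub2 x0) θ hθr
  have hθmax2 : ∀ θ' : M.P x0 → M.P x0 → Prop, Equivalence θ' →
      Rel (subA a2 (M.P x0) (hsub2 x0)) (subA a2 (M.P x0) (hsub2 x0)) θ' →
      (∀ x y, θ x y → θ' x y) → (∀ x y, θ' x y → θ x y) ∨ (∀ x y, θ' x y) := by
    intro θ' h1 h2 h3
    exact hθmax θ' h1
      (rel_transfer (fun E => (hT.inv E).2) (M.P x0) (hsub2 x0) (hM.subP x0) θ' h2) h3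
  have C1ok := ctx_ok u1 M.sys a1 x0 hok hQc hT.n1 hM.subP hrel1 (fun x => hAF1 x _) hp hT.nl1 s
    hθr hθmax hnf h0 hh0 B
  have C2ok := ctx_ok u2 M.sys a2 x0 hok hQc hT.n2 hsub2 hrel2 (fun x => hAF2 x _) hp hT.nl2 s
    hθr2 hθmax2 hnf h0 hh0 B
  obtain ⟨C1, hC1⟩ : ∃ C1 : Ctx ar1 V ((Σ k, ι k × ι k) ⊕ V) A (Quotient s),
    C1 = ⟨M.sys, a1, quoA (subA a1 (M.P x0) (hM.subP x0)) s, x0, h0, B⟩ := ⟨_, rfl⟩
  obtain ⟨C2, hC2⟩ : ∃ C2 : Ctx ar2 V ((Σ k, ι k × ι k) ⊕ V) A (Quotient s),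
    C2 = ⟨M.sys, a2, quoA (subA a2 (M.P x0) (hsub2 x0)) s, x0, h0, B⟩ := ⟨_, rfl⟩
  have ok1 : C1.Ok u1 := by rw [hC1]; exact C1ok
  have ok2 : C2.Ok u2 := by rw [hC2]; exact C2ok
  have hS1 : C1.S = M.sys := by rw [hC1]
  have hS2 : C2.S = M.sys := by rw [hC2]
  have ha1 : C1.a = a1 := by rw [hC1]
  have ha2 : C2.a = a2 := by rw [hC2]
  have hP12 : C2.P' = C1.P' := by rw [hC1, hC2]; rfl
  have hx01 : C1.x0 = x0 := by rw [hC1]
  obtain ⟨n1, s1, p1, b1⟩ := ha Ω1 ar1 u1 V _ A (Quotient s) C1 ok1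
  obtain ⟨n2, s2, p2, b2⟩ := ha Ω2 ar2 u2 V _ A (Quotient s) C2 ok2
  rw [ha1] at b1
  rw [ha2, hP12] at b2
  rw [hS1] at s1 p1
  rw [hx01] at p1
  -- the steps
  have hstp : ∀ (k : K) (i j : ι k), M.sys.src (Sum.inl ⟨k, (i, j)⟩) = M.σ k i ∧
      M.sys.tgt (Sum.inl ⟨k, (i, j)⟩) = M.σ k j ∧
      ∀ x y, M.sys.E (Sum.inl ⟨k, (i, j)⟩) x y ↔ ∃ r ∈ M.R k, r i = x ∧ r j = y :=
    fun k i j => ⟨rfl, rfl, fun x y => Iff.rfl⟩
  have hext : ∀ (k : K) (i : ι k), ∀ x ∈ C1.P' (M.σ k i), ∃ r ∈ M.R k, r i = x ∧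
      ∀ j, r j ∈ C1.P' (M.σ k j) := by
    intro k i x hx
    by_cases hk : M.fl k
    · have h1 := hb Ω1 ar1 u1 V _ A (Quotient s) C1 ok1 (ι k) (M.σ k) (M.R k)
        (fun i j => Sum.inl ⟨k, (i, j)⟩) (by rw [ha1]; exact hM.sub1 k hk)
        (by rw [hS1]; exact hstp k)
      exact h1 i x hx
    · have h1 := hb Ω2 ar2 u2 V _ A (Quotient s) C2 ok2 (ι k) (M.σ k) (M.R k)
        (fun i j => Sum.inl ⟨k, (i, j)⟩) (by rw [ha2]; exact hM.sub2 k hk)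
        (by rw [hS2]; exact hstp k)
      rw [hP12] at h1
      exact h1 i x hx
  have hmid : ∀ (k : K) (i j : ι k), ∀ r ∈ M.R k, r i ∈ C1.P' (M.σ k i) →
      r j ∈ C1.P' (M.σ k j) → ∃ r' ∈ M.R k, r' i = r i ∧ r' j = r j ∧
        ∀ l, r' l ∈ C1.P' (M.σ k l) := by
    intro k
    by_cases hk : M.fl k
    · have hR : Sub (piA C1.a (ι k)) (M.R k) := by rw [ha1]; exact hM.sub1 k hk
      have haf : AF (subA (piA C1.a (ι k)) (M.R k) hR) := by
        revert hR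
        rw [ha1]
        intro hR
        exact hAFk1 k hk hR
      exact hc Ω1 ar1 u1 V _ A (Quotient s) C1 ok1 (ι k) (M.σ k) (M.R k)
        (fun i j => Sum.inl ⟨k, (i, j)⟩) hR (by rw [hS1]; exact hstp k) haf
    · have hR : Sub (piA C2.a (ι k)) (M.R k) := by rw [ha2]; exact hM.sub2 k hk
      have haf : AF (subA (piA C2.a (ι k)) (M.R k) hR) := by
        revert hR
        rw [ha2]
        intro hR
        exact hAFk2 k hk hR
      have h1 := hc Ω2 ar2 u2 V _ A (Quotient s) C2 ok2 (ι k) (M.σ k) (M.R k)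
        (fun i j => Sum.inl ⟨k, (i, j)⟩) hR (by rw [hS2]; exact hstp k) haf
      rw [hP12] at h1
      exact h1
  -- the new instance
  refine ⟨fun k => {r | r ∈ M.R k ∧ ∀ i, r i ∈ C1.P' (M.σ k i)}, C1.P', ?_, ?_, ?_, s1,
    Or.inl ⟨x0, p1⟩⟩
  · refine ⟨n1, ?_, b1, ?_, ?_, ?_, ?_⟩
    · intro k
      by_cases hk : Nonempty (ι k)
      · obtain ⟨i⟩ := hk
        obtain ⟨x, hx⟩ := n1 (M.σ k i)
        obtain ⟨r, hr, -, hr2⟩ := hext k i x hx
        exact ⟨r, hr, hr2⟩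
      · obtain ⟨r, hr⟩ := hM.neR k
        exact ⟨r, hr, fun i => absurd ⟨i⟩ hk⟩
    · intro k hk ω x hx
      exact ⟨hM.sub1 k hk ω x (fun i => (hx i).1), fun j => b1 _ ω _ (fun i => (hx i).2 j)⟩
    · intro k hk ω x hx
      exact ⟨hM.sub2 k hk ω x (fun i => (hx i).1), fun j => b2 _ ω _ (fun i => (hx i).2 j)⟩
    · intro k r hr i
      exact hr.2 i
    · intro k i x hx
      obtain ⟨r, hr, h1, h2⟩ := hext k i x hx
      exact ⟨r, ⟨hr, h2⟩, h1⟩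
  · -- consistency
    obtain ⟨M', hM'⟩ : ∃ M' : MI V K A ι, M' = { M with
      R := fun k => {r | r ∈ M.R k ∧ ∀ i, r i ∈ C1.P' (M.σ k i)}, P := C1.P' } := ⟨_, rfl⟩
    rw [← hM']
    have hsrc : M'.sys.src = M.sys.src := by rw [hM']; rfl
    have htgt : M'.sys.tgt = M.sys.tgt := by rw [hM']; rfl
    have hfw : ∀ t a b, M'.sys.E t a b → M.sys.E t a b ∧ a ∈ C1.P' (M.sys.src t) ∧
        b ∈ C1.P' (M.sys.tgt t) := by
      intro t a b h
      rw [hM'] at h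
      rcases t with ⟨k, i, j⟩ | x
      · obtain ⟨r, ⟨hr, hr'⟩, h1, h2⟩ := h
        exact ⟨⟨r, hr, h1, h2⟩, h1 ▸ hr' i, h2 ▸ hr' j⟩
      · obtain ⟨h1, h2⟩ := h
        subst h1
        exact ⟨⟨rfl, s1 x h2⟩, h2, h2⟩
    have hbw : ∀ t a b, (M.sys.E t a b ∧ a ∈ C1.P' (M.sys.src t) ∧
        b ∈ C1.P' (M.sys.tgt t)) → M'.sys.E t a b := by
      rintro t a b ⟨h, h1, h2⟩
      rw [hM']
      rcases t with ⟨k, i, j⟩ | x
      · obtain ⟨r, hr, rfl, rfl⟩ := h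
        obtain ⟨r', hr', e1, e2, e3⟩ := hmid k i j r hr h1 h2
        exact ⟨r', ⟨hr', e3⟩, e1, e2⟩
      · exact ⟨h.1, h1⟩
    intro t π ρ hπ hρ
    rw [isPath_congr M'.sys M.sys hsrc htgt, hsrc, htgt] at hπ hρ
    -- the two cases
    have fin1 : ∀ (hE : Sub (prodA a1 a1) {p : A × A | M.sys.E t p.1 p.2}),
        AF (subA (prodA a1 a1) {p : A × A | M.sys.E t p.1 p.2} hE) →
        ∃ N, ∀ j, N ≤ j → ∀ a b, M'.sys.E t a b →
          M'.sys.Rl (π ++ rep j (ρ ++ π)) a b := by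
      intro hE hafE
      obtain ⟨N, hN⟩ := afd_ hd C1 ok1 M.sys a1 hS1 ha1 t hE hafE π ρ hπ hρ
      refine ⟨N, fun j hj a b hab => ?_⟩
      obtain ⟨g1, g2, g3⟩ := hfw t a b hab
      have h2 := hN j hj a b g1 g2 g3
      refine rl_mono _ _ ?_ _ _ _ h2
      intro t' a' b' h3
      exact hbw t' a' b' h3
    have fin2 : ∀ (hE : Sub (prodA a2 a2) {p : A × A | M.sys.E t p.1 p.2}),
        AF (subA (prodA a2 a2) {p : A × A | M.sys.E t p.1 p.2} hE) →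
        ∃ N, ∀ j, N ≤ j → ∀ a b, M'.sys.E t a b →
          M'.sys.Rl (π ++ rep j (ρ ++ π)) a b := by
      intro hE hafE
      obtain ⟨N, hN⟩ := afd_ hd C2 ok2 M.sys a2 hS2 ha2 t hE hafE π ρ hπ hρ
      rw [hP12] at hN
      refine ⟨N, fun j hj a b hab => ?_⟩
      obtain ⟨g1, g2, g3⟩ := hfw t a b hab
      have h2 := hN j hj a b g1 g2 g3
      refine rl_mono _ _ ?_ _ _ _ h2
      intro t' a' b' h3
      exact hbw t' a' b' h3
    rcases t with ⟨k, i, j⟩ | x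
    · by_cases hk : M.fl k
      · exact fin1 (sub_of_rel (hrel1 _)) (af_proj hp a1 (M.R k) (hM.sub1 k hk)
          (hAFk1 k hk _) i j _ (fun x y => Iff.rfl) _)
      · exact fin2 (sub_of_rel (hrel2 _)) (af_proj hp a2 (M.R k) (hM.sub2 k hk)
          (hAFk2 k hk _) i j _ (fun x y => Iff.rfl) _)
    · exact fin1 (sub_of_rel (hrel1 _)) (af_diag hp a1 (M.P x) (hM.subP x) (hAF1 x _) _
        (fun x y => Iff.rfl) _)
  · intro k r hr
    exact hr.1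

end Pool.Agent.W351.BW.RA
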